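import Pool.Agent.Q160.BRneg

/-!
MP_4402c4_co: the equality `2 D(u) = sum T_u(n)` fails for some recurrent word with infinitely
many palindromic factors whose language is not closed under reversal.
-/

namespace Pool.Agent.Results.MP_4402c4_co.EqualityFails

open Q160.WPal Filter Topology

/-- There is a recurrent infinite word over a four-letter alphabet, with infinitely many
palindromic factors and a language that is not closed under reversal, for which the partial
sums of `T_u(n)` have limit inferior `-∞`; in particular they do not converge, in the extended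
reals, to `2 D(u)` (which is nonnegative). -/
theorem result : ∃ u : ℕ → Fin 4,
    Recurrent u ∧ InfPal u ∧ ¬ ClosedRev u ∧
    (∀ B : ℤ, ∃ᶠ N : ℕ in atTop, ∑ n ∈ Finset.range N, T u n < B) ∧
    0 ≤ defect u ∧
    ¬ Tendsto (fun N : ℕ => (((∑ n ∈ Finset.range N, T u n : ℤ) : ℝ) : EReal)) atTop
      (𝓝 (2 * defect u)) := by
  have hfreq : ∀ B : ℤ, ∃ᶠ N : ℕ in atTop,
      ∑ n ∈ Finset.range N, T Q160.BRneg.u n < B := by
    intro B
    rw [frequently_atTop]
    intro a
    set k := a + B.natAbs with hk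
    have hl := Q160.BRneg.U_length_lt k
    refine ⟨Q160.BRneg.ex (Q160.BRneg.U k) + 1, ?_, ?_⟩
    · unfold Q160.BRneg.ex
      omega
    · have := Q160.BRneg.sum_T_le k
      omega
  refine ⟨Q160.BRneg.u, Q160.BRneg.recurrent_u, Q160.BRneg.infPal_u, Q160.BRneg.not_closed,
    hfreq, Q160.BRneg.defect_nonneg, ?_⟩
  intro ht
  have h0 : (0 : EReal) ≤ 2 * defect Q160.BRneg.u :=
    mul_nonneg (by norm_num) Q160.BRneg.defect_nonneg
  have h1 : (((-1 : ℝ)) : EReal) < 2 * defect Q160.BRneg.u := by
    refine lt_of_lt_of_le ?_ h0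
    exact_mod_cast (by norm_num : (-1 : ℝ) < 0)
  have h2 := ht.eventually (lt_mem_nhds h1)
  obtain ⟨N, hN1, hN2⟩ := ((hfreq (-1)).and_eventually h2).exists
  have h3 : (-1 : ℝ) < ((∑ n ∈ Finset.range N, T Q160.BRneg.u n : ℤ) : ℝ) := by
    exact_mod_cast hN2
  have h4 : (-1 : ℤ) < ∑ n ∈ Finset.range N, T Q160.BRneg.u n := by exact_mod_cast h3
  omega

end Pool.Agent.Results.MP_4402c4_co.EqualityFails
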